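import Pool.Agent.K3h88.VR.Stm

/-! Project VR of helper88: brick TAIL (helper18) -/

set_option autoImplicit false

namespace Pool.Agent.K3h18.VR

open Finset Filter Pool.Agent.K3h88.VR

lemma sum_fin {q : ℕ} (hq : 1 ≤ q) :
    ∑ a : Fin q, (if (a : ℕ) = 0 then (1 / 2 : ℝ) else 1) = (q : ℝ) * (1 - 1 / (2 * (q : ℝ))) := by
  obtain ⟨m, rfl⟩ := Nat.exists_eq_add_of_le' hq
  rw [Fin.sum_univ_succ]
  have h1 : ∀ i : Fin m, (if ((i.succ : Fin (m + 1)) : ℕ) = 0 then (1 / 2 : ℝ) else 1) = 1 := by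
    intro i
    rw [if_neg]
    rw [Fin.val_succ]
    omega
  rw [Finset.sum_congr rfl fun i _ => h1 i]
  simp only [Fin.val_zero, if_true, Finset.sum_const, Finset.card_univ, Fintype.card_fin,
    nsmul_eq_mul, mul_one]
  push_cast
  have h2 : (m : ℝ) + 1 ≠ 0 := by positivity
  field_simp
  ring

theorem t_TAIL : S_TAIL := by
  classical
  intro X _ _ W q s hq
  have hcard : (Nat.card {f : X → Fin q // (W.filter (fun x => (f x : ℕ) = 0)).card ≤ s} : ℝ) =
      ∑ f : X → Fin q, if (W.filter (fun x => (f x : ℕ) = 0)).card ≤ s then (1 : ℝ) else 0 := by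
    rw [Nat.card_eq_fintype_card, Fintype.card_subtype, Finset.sum_boole]
  rw [hcard]
  have hterm : ∀ f : X → Fin q,
      (if (W.filter (fun x => (f x : ℕ) = 0)).card ≤ s then (1 : ℝ) else 0) ≤
      2 ^ s * ∏ x : X, (if x ∈ W then (if (f x : ℕ) = 0 then (1 / 2 : ℝ) else 1) else 1) := by
    intro f
    have h1 : ∏ x : X, (if x ∈ W then (if (f x : ℕ) = 0 then (1 / 2 : ℝ) else 1) else 1) =
        (1 / 2 : ℝ) ^ (W.filter (fun x => (f x : ℕ) = 0)).card := by
      rw [Finset.prod_ite_mem, Finset.univ_inter, Finset.prod_ite, Finset.prod_const,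
        Finset.prod_const_one, mul_one]
    rw [h1]
    split_ifs with h
    · have h2 : (1 : ℝ) = 2 ^ s * (1 / 2 : ℝ) ^ s := by
        rw [← mul_pow]
        norm_num
      calc (1 : ℝ) = 2 ^ s * (1 / 2 : ℝ) ^ s := h2
        _ ≤ _ := mul_le_mul_of_nonneg_left
          (pow_le_pow_of_le_one (by norm_num) (by norm_num) h) (by positivity)
    · positivity
  have hsum : ∑ f : X → Fin q, ∏ x : X,
      (if x ∈ W then (if (f x : ℕ) = 0 then (1 / 2 : ℝ) else 1) else 1) =
      ∏ x : X, ∑ a : Fin q, (if x ∈ W then (if (a : ℕ) = 0 then (1 / 2 : ℝ) else 1) else 1) := by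
    rw [Finset.prod_univ_sum, Fintype.piFinset_univ]
  have hone : ∀ x : X, ∑ a : Fin q,
      (if x ∈ W then (if (a : ℕ) = 0 then (1 / 2 : ℝ) else 1) else 1) =
      (q : ℝ) * (if x ∈ W then (1 - 1 / (2 * (q : ℝ))) else 1) := by
    intro x
    by_cases hx : x ∈ W
    · simp only [if_pos hx]
      exact sum_fin hq
    · simp only [if_neg hx]
      simp
  calc ∑ f : X → Fin q, (if (W.filter (fun x => (f x : ℕ) = 0)).card ≤ s then (1 : ℝ) else 0)
      ≤ ∑ f : X → Fin q, 2 ^ s * ∏ x : X,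
        (if x ∈ W then (if (f x : ℕ) = 0 then (1 / 2 : ℝ) else 1) else 1) :=
        Finset.sum_le_sum fun f _ => hterm f
    _ = 2 ^ s * ∏ x : X, ((q : ℝ) * (if x ∈ W then (1 - 1 / (2 * (q : ℝ))) else 1)) := by
        rw [← Finset.mul_sum, hsum, Finset.prod_congr rfl fun x _ => hone x]
    _ = 2 ^ s * (1 - 1 / (2 * (q : ℝ))) ^ W.card * (q : ℝ) ^ (Fintype.card X) := by
        rw [Finset.prod_mul_distrib, Finset.prod_const, Finset.card_univ, Finset.prod_ite_mem,
          Finset.univ_inter, Finset.prod_const]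
        ring

end Pool.Agent.K3h18.VR
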